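import Pool.Agent.H8.BU.FIMan
import Pool.Agent.H65.RM.Equi
import Pool.Agent.H65.RM.Height

/-!
# Project BU: intersection numbers from a proper action of a subgroup of finite index

`A` is a group with the cubes `(g, s)`, a subgroup `P` of finite index of `A` acts properly on an acyclic homology
manifold. The chain map from the cubes is equivariant for `P`.
-/

set_option autoImplicit false
set_option linter.unusedSectionVars false

open Finset Pointwise

namespace Pool.Agent.H8.BU.FI

open Pool.Agent.H37.TM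
open Pool.Agent.H65.RM hiding IsPsi al_supp cob_al sum_al al_smul al_empty al_fin cI_zero fin_up fin_cup fin_cup' rel_aux HH_rel HH_one HH_fin inter_of_psi

variable {A W U : Type} [Group A] [DecidableEq W] [DecidableEq U] {K B : Set (Finset U)} {n : ℕ}
  (P : Subgroup A) [MulAction P U]

/-- The chain map from the cubes to the complex of pairs, equivariant for a subgroup. -/
theorem exists_psi_sub (O : SimpleGraph W) (e : W → A)
    (hc : ∀ u w, O.Adj u w → e u * e w = e w * e u)
    (hM : Mfd K B n) (hK : Acyc K) (hA : PAct P K B) :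
    ∃ Ψ : A × Finset W → (Finset U × Finset U →₀ ZMod 2),
      (∀ i, ∀ c ∈ ACell A O i, Ψ c ∈ TN K B n (i + 1)) ∧
      (∀ (h : P) i, ∀ c ∈ ACell A O i, Ψ (h.1 * c.1, c.2) = (Ψ c).mapDomain (h • ·)) ∧
      ∀ i, ∀ c ∈ ACell A O i, bdT K n (Ψ c) =
        (if i = 0 then Finsupp.single (∅, ∅) 1 else 0) + lin Ψ (bdA e c) := by
  classical
  let act : MulAction P (A × Finset W) :=
    { smul := fun h c => (h.1 * c.1, c.2)
      one_smul := fun c => by
        change ((1 : P).1 * c.1, c.2) = c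
        rw [Subgroup.coe_one, one_mul]
      mul_smul := fun h h' c => by
        change ((h * h').1 * c.1, c.2) = (h.1 * (h'.1 * c.1), c.2)
        rw [Subgroup.coe_mul, mul_assoc] }
  have hconst : ∀ (F : Finset W → (Finset U × Finset U →₀ ZMod 2)) (c : A × Finset W),
      lin (fun c : A × Finset W => F c.2) (bdA e c) = 0 := by
    intro F c
    unfold bdA
    rw [map_sum]
    refine Finset.sum_eq_zero fun v _ => ?_
    rw [map_add, lin_single, lin_single]
    exact add_self_mod _
  obtain ⟨H, h1, h2, h3⟩ := lift_free (Γ := P) (A := A × Finset W)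
    (N := Finset U × Finset U →₀ ZMod 2) (ACell A O)
    (fun i g c hc' => hc') (fun i j c hi hj => hi.2.symm.trans hj.2)
    (fun i c _ g h => by
      have h' : g.1 * c.1 = c.1 := congrArg Prod.fst h
      exact Subtype.ext (mul_eq_right.1 h'))
    (bdA e) (fun i c hc' b hb => bdA_cell hc' b hb) (fun c hc' => bdA_zero hc')
    (fun i g c _ => bdA_smul e g.1 c) (fun i c hc' => bdA_bdA hc hc'.1)
    (rhoE P U) (bdT K n) (fun g x => bdT_smul hA g x)
    (TN K B n) (fun i g x hx => tn_smul hA g i x hx)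
    (fun i _ x hx h0 => tot_exact hM (hK.lt i) i le_rfl x hx h0)
    (fun c => if c.2 = ∅ then Finsupp.single (∅, ∅) 1 else 0)
    (fun i c hc' => by
      split_ifs with h
      · have hi : i = 0 := by
          rw [← hc'.2, h, Finset.card_empty]
        subst hi
        exact Finsupp.single_mem_supported (ZMod 2) (1 : ZMod 2)
          (show ((∅ : Finset U), (∅ : Finset U)) ∈ TCell K B n 0 from rfl)
      · exact Submodule.zero_mem _)
    (fun i g c _ => by
      change (if c.2 = ∅ then Finsupp.single ((∅ : Finset U), (∅ : Finset U)) (1 : ZMod 2) else 0) =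
        (if c.2 = ∅ then Finsupp.single ((∅ : Finset U), (∅ : Finset U)) (1 : ZMod 2)
          else 0).mapDomain (g • ·)
      split_ifs with h
      · rw [Finsupp.mapDomain_single]
        congr 1
      · rw [Finsupp.mapDomain_zero])
    (fun i c _ => by
      rw [hconst (fun σ => if σ = ∅ then Finsupp.single ((∅ : Finset U), (∅ : Finset U))
        (1 : ZMod 2) else 0) c]
      split_ifs with h
      · change lin (bdE K n) (Finsupp.single ((∅ : Finset U), (∅ : Finset U)) (1 : ZMod 2)) = 0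
        rw [lin_single]
        unfold bdE
        rw [if_pos rfl]
      · rw [map_zero])
  refine ⟨H, h1, fun h i c hc' => h2 i h c hc', fun i c hc' => ?_⟩
  rw [h3 i c hc']
  congr 1
  have h := hc'.2
  by_cases hi : i = 0
  · subst hi
    rw [if_pos rfl, if_pos (Finset.card_eq_zero.1 h)]
  · rw [if_neg hi, if_neg]
    intro h'
    rw [h', Finset.card_empty] at h
    exact hi h.symm

variable {P} {O : SimpleGraph W} {e : W → A}
  {Ψ : A × Finset W → (Finset U × Finset U →₀ ZMod 2)} {ht : U → ℕ}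

theorem al_smul_sub (hsm : ∀ (h : P) (g : A) (s : Finset W), O.IsClique (s : Set W) →
      Ψ (h.1 * g, s) = (Ψ (g, s)).mapDomain (h • ·)) (h : P) (g : A) {s : Finset W}
    (hs : O.IsClique (s : Set W)) (t : Finset U) :
    al Ψ (h.1 * g, s) (h • t) = al Ψ (g, s) t := by
  classical
  unfold al
  rw [hsm h g s hs]
  have hsm : h • t = t.map ⟨fun u => h • u, MulAction.injective h⟩ := by
    rw [Finset.map_eq_image]
    rfl
  conv_lhs => rw [hsm]
  rw [Finset.sum_map]
  refine sum_congr rfl fun v _ => ?_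
  rw [← hsm]
  have h1 : (({(⟨fun u => h • u, MulAction.injective h⟩ : U ↪ U) v}, h • t) :
      Finset U × Finset U) = h • (({v}, t) : Finset U × Finset U) := by
    change _ = (h • ({v} : Finset U), h • t)
    rw [smul_finset_singleton]
    rfl
  rw [h1]
  exact Finsupp.mapDomain_apply (MulAction.injective h) _ _

/-- representatives of the cosets -/
theorem exists_reps (P : Subgroup A) [P.FiniteIndex] :
    ∃ R : Finset A, ∀ g : A, ∃ p : P, ∃ r ∈ R, g = p.1 * r := by
  classical
  have : Finite (A ⧸ P) := inferInstance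
  have hf : Fintype (A ⧸ P) := Fintype.ofFinite _
  refine ⟨(univ : Finset (A ⧸ P)).image fun q => (Quotient.out q)⁻¹, fun g => ?_⟩
  have h1 : ((Quotient.out (QuotientGroup.mk g⁻¹ : A ⧸ P) : A) : A ⧸ P) = QuotientGroup.mk g⁻¹ :=
    Quotient.out_eq' _
  have h2 : (Quotient.out (QuotientGroup.mk g⁻¹ : A ⧸ P))⁻¹ * g⁻¹ ∈ P := QuotientGroup.eq.1 h1
  have h3 : g * Quotient.out (QuotientGroup.mk g⁻¹ : A ⧸ P) ∈ P := by
    have := P.inv_mem h2
    rwa [mul_inv_rev, inv_inv, inv_inv] at this
  refine ⟨⟨_, h3⟩, _, mem_image_of_mem _ (mem_univ (QuotientGroup.mk g⁻¹ : A ⧸ P)), ?_⟩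
  show g = g * Quotient.out (QuotientGroup.mk g⁻¹ : A ⧸ P) *
    (Quotient.out (QuotientGroup.mk g⁻¹ : A ⧸ P))⁻¹
  rw [mul_inv_cancel_right]

/-- only finitely many relative positions of two cubes have nonzero intersection numbers -/
theorem HH_fin_sub [Fintype W] [P.FiniteIndex] (hM : Mfd K B n) (hΨ : IsPsi O e K B n Ψ)
    (hsm : ∀ (h : P) (g : A) (s : Finset W), O.IsClique (s : Set W) →
      Ψ (h.1 * g, s) = (Ψ (g, s)).mapDomain (h • ·)) (hA : PAct P K B) :
    ∃ E : Finset A, ∀ (g : A) (s : Finset W) (g' : A) (s' : Finset W),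
      O.IsClique (s : Set W) → O.IsClique (s' : Set W) → HH K B n ht Ψ g s g' s' ≠ 0 →
      g⁻¹ * g' ∈ E := by
  classical
  obtain ⟨R, hR⟩ := exists_reps P
  -- the vertices of the simplices in the supports of the cochains of the cubes at the representatives
  set S : Set U := {u | ∃ r ∈ R, ∃ s : Finset W, O.IsClique (s : Set W) ∧ ∃ f, al Ψ (r, s) f ≠ 0 ∧
      u ∈ f} with hS
  have h1 : S.Finite := by
    have h2 : S ⊆ ⋃ r ∈ (R : Set A), ⋃ s ∈ (Set.univ : Set (Finset W)),
        ⋃ f ∈ {f | al Ψ (r, s) f ≠ 0}, ((f : Finset U) : Set U) := by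
      rintro u ⟨r, hr, s, _, f, hf, hu⟩
      exact Set.mem_biUnion hr (Set.mem_biUnion (Set.mem_univ s) (Set.mem_biUnion hf hu))
    refine Set.Finite.subset ?_ h2
    exact R.finite_toSet.biUnion fun r _ => Set.finite_univ.biUnion fun s _ =>
      (al_fin _).biUnion fun f _ => f.finite_toSet
  have h5 : ∀ u ∈ S, {u} ∈ K := by
    rintro u ⟨r, _, s, hs, f, hf, hu⟩
    exact hM.down f (al_supp hΨ hs hf).1 _ (singleton_subset_iff.2 hu) (singleton_nonempty u)
  have h4 : ∀ u ∈ S, {w | ∃ t ∈ K, u ∈ t ∧ w ∈ t}.Finite := by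
    intro u hu
    have h7 : {w | ∃ t ∈ K, u ∈ t ∧ w ∈ t} ⊆
        ⋃ t ∈ {t | t ∈ K ∧ {u} ⊆ t}, ((t : Finset U) : Set U) := by
      rintro w ⟨t, ht1, ht2, ht3⟩
      exact Set.mem_biUnion (show t ∈ {t | t ∈ K ∧ {u} ⊆ t} from
        ⟨ht1, singleton_subset_iff.2 ht2⟩) ht3
    exact ((hM.locfin _ (h5 u hu)).biUnion fun t _ => t.finite_toSet).subset h7
  have h3 : {h : P | ∃ u ∈ S, ∃ u' ∈ S, ∃ t ∈ K, u ∈ t ∧ h • u' ∈ t}.Finite := by
    refine Set.Finite.subset (h1.biUnion fun u hu => h1.biUnion fun u' hu' =>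
      (h4 u hu).biUnion fun w _ => hA.proper u' w (h5 u' hu')) ?_
    rintro h ⟨u, hu, u', hu', t, ht1, ht2, ht3⟩
    exact Set.mem_biUnion hu (Set.mem_biUnion hu' (Set.mem_biUnion
      (show h • u' ∈ {w | ∃ t ∈ K, u ∈ t ∧ w ∈ t} from ⟨t, ht1, ht2, ht3⟩) rfl))
  refine ⟨(R ×ˢ (h3.toFinset ×ˢ R)).image fun x => x.1⁻¹ * x.2.1.1 * x.2.2,
    fun g s g' s' hs hs' hne => ?_⟩
  obtain ⟨p, r, hr, hg⟩ := hR g
  obtain ⟨p', r', hr', hg'⟩ := hR g'
  rw [mem_image]
  refine ⟨(r, (p⁻¹ * p', r')), ?_, ?_⟩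
  · rw [mem_product, mem_product, Set.Finite.mem_toFinset]
    refine ⟨hr, ?_, hr'⟩
    unfold HH at hne
    split_ifs at hne with hc
    · -- a top simplex with a nonzero cup product
      have h5 : ∃ t, (if Top K B n t then cup ht (n + 1 - (s.card + s'.card)) (al Ψ (g, s))
          (al Ψ (g', s')) t else 0) ≠ 0 := by
        by_contra hcon
        push Not at hcon
        apply hne
        unfold cI
        rw [finsum_congr hcon, finsum_zero]
      obtain ⟨t, htne⟩ := h5
      by_cases hT : Top K B n t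
      · rw [if_pos hT] at htne
        obtain ⟨f, hf, f', hf', h6, h7⟩ := cup_ne htne
        have e1 : al Ψ (g, s) f = al Ψ (r, s) (p⁻¹ • f) := by
          have := al_smul_sub hsm p r hs (p⁻¹ • f)
          rwa [smul_inv_smul, ← hg] at this
        have e2 : al Ψ (g', s') f' = al Ψ (r', s') (p'⁻¹ • f') := by
          have := al_smul_sub hsm p' r' hs' (p'⁻¹ • f')
          rwa [smul_inv_smul, ← hg'] at this
        obtain ⟨u, hu⟩ := hM.ne f (al_supp hΨ hs h6).1
        obtain ⟨u', hu'⟩ := hM.ne f' (al_supp hΨ hs' h7).1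
        rw [e1] at h6
        rw [e2] at h7
        refine ⟨p⁻¹ • u, ⟨r, hr, s, hs, _, h6, smul_mem_smul_finset hu⟩, p'⁻¹ • u',
          ⟨r', hr', s', hs', _, h7, smul_mem_smul_finset hu'⟩, p⁻¹ • t, hA.K_mem p⁻¹ t hT.1,
          smul_mem_smul_finset (hf hu), ?_⟩
        rw [← mul_smul, mul_assoc, mul_inv_cancel, mul_one]
        exact smul_mem_smul_finset (hf' hu')
      · exact absurd (if_neg hT) htne
    · exact absurd rfl hne
  · show r⁻¹ * (p⁻¹ * p' : P).1 * r' = g⁻¹ * g'
    rw [hg, hg', Subgroup.coe_mul, Subgroup.coe_inv]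
    group

/-- **Intersection numbers from a proper action of a subgroup of finite index.** -/
theorem exists_inter_sub {A W U : Type} [Group A] [DecidableEq W] [Fintype W] [DecidableEq U]
    (P : Subgroup A) [P.FiniteIndex] [MulAction P U] (O : SimpleGraph W) (e : W → A)
    (hc : ∀ u w, O.Adj u w → e u * e w = e w * e u) {K B : Set (Finset U)} {n : ℕ}
    (hM : Mfd K B n) (hK : Acyc K) (hA : PAct P K B) :
    ∃ H : A → Finset W → A → Finset W → ZMod 2, Inter O e n H := by
  obtain ⟨Ψ, h1, h2, h3⟩ := exists_psi_sub P O e hc hM hK hA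
  obtain ⟨ht, hinj⟩ := exists_height hM hK
  have hΨ : IsPsi O e K B n Ψ := by
    refine ⟨fun g s hs => h1 s.card (g, s) ⟨hs, rfl⟩, fun g s hs => ?_⟩
    have h4 := h3 s.card (g, s) ⟨hs, rfl⟩
    rw [h4]
    congr 1
    exact if_congr card_eq_zero rfl rfl
  have hsm : ∀ (h : P) (g : A) (s : Finset W), O.IsClique (s : Set W) →
      Ψ (h.1 * g, s) = (Ψ (g, s)).mapDomain (h • ·) := fun h g s hs => h2 h s.card (g, s) ⟨hs, rfl⟩
  refine ⟨HH K B n ht Ψ, ?_⟩
  exact
    { rel := fun g s g' s' hs hs' => HH_rel hM hK hinj hΨ g s g' s' hs hs'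
      top := fun g s g' s' _ _ h => by
        unfold HH
        rw [if_neg (by omega)]
      one := HH_one hM hΨ
      fin := HH_fin_sub hM hΨ hsm hA }

end Pool.Agent.H8.BU.FI
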