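import Pool.Agent.H65.BU.L2
import Pool.Agent.H8.BU.FI

/-!
# Project BU: subgroups of finite index of graph products
-/

set_option autoImplicit false

open Finset

namespace Pool.Agent.H8.BU

open Pool.Agent.H65.RA Pool.Agent.H65.RM Pool.Agent.H37.TM Pool.Agent.H65.BU Pool.Agent.H85.DV

/-- **Theorem M for subgroups of finite index.** -/
theorem hz_gp_sub_fi {V U : Type} [Fintype V] [DecidableEq V] [DecidableEq U] (G : SimpleGraph V)
    (Γ : V → Type) [∀ v, Group (Γ v)] (P : Subgroup (GP G Γ)) [P.FiniteIndex] [MulAction P U]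
    (h3 : ∀ v, ∃ x y : Γ v, x ≠ 1 ∧ y ≠ 1 ∧ x ≠ y) {K B : Set (Finset U)} {n k : ℕ}
    (hMf : Mfd K B n) (hK : Acyc K) (hA : PAct P K B) (hn : n ≤ 2 * k + 1) (p : V → Prop)
    [DecidablePred p] : HZ (G.comap (Subtype.val : {v // p v} → V)) (k + 1) := by
  choose x y hx hy hxy using h3
  let P' : Subgroup (GP (G.comap (Subtype.val : {v // p v} → V)) fun v => Γ v.1) :=
    P.comap (sub G Γ p)
  have hfi : P'.FiniteIndex := by
    refine ⟨?_⟩
    show (P.comap (sub G Γ p)).index ≠ 0
    rw [Subgroup.index_comap]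
    intro h0
    exact Subgroup.FiniteIndex.index_ne_zero (H := P)
      (Subgroup.index_eq_zero_of_relIndex_eq_zero h0)
  let φ : P' →* P := (sub G Γ p).subgroupComap P
  let _ : MulAction P' U := MulAction.compHom U φ
  have hφ : Function.Injective φ := by
    intro a b hab
    apply Subtype.ext
    apply sub_injective p
    exact congrArg Subtype.val hab
  have hA' : PAct P' K B := by
    refine ⟨fun g s hs => ?_, fun g s hs => ?_, fun u w hu => ?_⟩
    · exact hA.K_mem (φ g) s hs
    · exact hA.B_mem (φ g) s hs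
    · exact (hA.proper u w hu).preimage hφ.injOn
  obtain ⟨H, hH⟩ := FI.exists_inter_sub P' (oct (G.comap (Subtype.val : {v // p v} → V)))
    (fun z : {v // p v} × Bool => io (G.comap (Subtype.val : {v // p v} → V))
      (Γ := fun v : {v // p v} => Γ v.1) (v := z.1) (if z.2 then x z.1.1 else y z.1.1)) (by
      rintro ⟨u, a⟩ ⟨v, b⟩ h
      exact io_comm (G := G.comap (Subtype.val : {v // p v} → V))
        (Γ := fun v : {v // p v} => Γ v.1) (u := u) (v := v) h _ _) hMf hK hA'
  exact hz_gp_of_inter (G.comap (Subtype.val : {v // p v} → V)) (fun v => Γ v.1)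
    (fun v b => if b then x v.1 else y v.1) (by
      intro v b
      cases b
      · exact hy v.1
      · exact hx v.1) (fun v => hxy v.1) hH hn

/-- **Q1 for subgroups of finite index of graph products of large finite groups.** -/
theorem exists_q1_fi {V : Type} [Fintype V] [DecidableEq V] (G : SimpleGraph V) :
    ∃ N : ℕ, ∀ (Γ : V → Type) [∀ v, Group (Γ v)] [∀ v, Fintype (Γ v)],
      (∀ v, N ≤ Fintype.card (Γ v)) → ∀ (P : Subgroup (GP G Γ)) [P.FiniteIndex]
      (U : Type) [DecidableEq U] [MulAction P U]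
      (K B : Set (Finset U)) (n : ℕ), Mfd K B n → Acyc K → PAct P K B →
      ∀ i : ℕ, n < 2 * i → L2ZeroD G (fun v => (io G : Γ v →* GP G Γ)) i := by
  obtain ⟨N, hN⟩ := exists_l2zero G
  refine ⟨max N 3, fun Γ _ _ hc P _ U _ _ K B n hM hK hA i hi => ?_⟩
  obtain ⟨k, rfl⟩ : ∃ k, i = k + 1 := ⟨i - 1, by omega⟩
  refine hN Γ (fun v => le_trans (le_max_left N 3) (hc v)) (k + 1) fun A _ => ?_
  refine hz_gp_sub_fi G Γ P (fun v => ?_) hM hK hA (by omega) (fun v => v ∉ A)
  have h3 : 2 < Fintype.card (Γ v) := lt_of_lt_of_le (by norm_num) (le_trans (le_max_right N 3) (hc v))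
  obtain ⟨a, b, c, hab, hac, hbc⟩ := Fintype.two_lt_card_iff.1 h3
  by_cases ha : a = 1
  · exact ⟨b, c, fun h => hab (ha.trans h.symm), fun h => hac (ha.trans h.symm), hbc⟩
  · by_cases hb : b = 1
    · exact ⟨a, c, ha, fun h => hbc (hb.trans h.symm), hac⟩
    · exact ⟨a, b, ha, hb, hab⟩

end Pool.Agent.H8.BU
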